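import Mathlib

/-!
# A non-metrizable compact group determined by all its omega-bounded dense subgroups

The group is the power of the two element group with exponent the first uncountable cardinal.
-/

set_option autoImplicit false
set_option linter.dupNamespace false
set_option linter.unusedSectionVars false
set_option linter.deprecated false

open Topology Set

namespace Pool.Agent.Results.MP_04f724_gt.OmegaBounded

/-- restriction of continuous characters to a subgroup -/
noncomputable def res {G : Type} [CommGroup G] [TopologicalSpace G] (H : Subgroup G) :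
    PontryaginDual G →ₜ* PontryaginDual H :=
  PontryaginDual.map ⟨H.subtype, continuous_subtype_val⟩

/-- the subgroup `H` determines `G` -/
def Determines {G : Type} [CommGroup G] [TopologicalSpace G] (H : Subgroup G) : Prop :=
  IsHomeomorph (res H)

/-- the closure of every countable subset is compact -/
def OmegaBounded (X : Type) [TopologicalSpace X] : Prop :=
  ∀ S : Set X, S.Countable → IsCompact (closure S)

lemma exists_index : ∃ (ι : Type) (_ : LinearOrder ι), Uncountable ι ∧
    ∀ i : ι, (Iio i).Countable := by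
  refine ⟨(Cardinal.aleph 1).ord.ToType, inferInstance, ?_, ?_⟩
  · rw [← Cardinal.aleph0_lt_mk_iff, Cardinal.mk_toType, Cardinal.card_ord]
    exact Cardinal.aleph0_lt_aleph_one
  · intro i
    have h := Cardinal.mk_Iio_toType_ord_lt i
    rw [← Cardinal.le_aleph0_iff_set_countable]
    have h2 : Order.succ Cardinal.aleph0 = Cardinal.aleph 1 := by simp
    exact Order.lt_succ_iff.1 (h.trans_eq h2.symm)

section

variable {ι : Type} [LinearOrder ι]

lemma nhds_one {U : Set (ι → ℤˣ)} (hU : U ∈ 𝓝 (1 : ι → ℤˣ)) :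
    ∃ F : Finset ι, ∀ g : ι → ℤˣ, (∀ i ∈ F, g i = 1) → g ∈ U := by
  rw [nhds_pi, Filter.mem_pi'] at hU
  obtain ⟨F, t, ht, h⟩ := hU
  refine ⟨F, fun g hg => h ?_⟩
  intro i hi
  rw [hg i hi]
  exact mem_of_mem_nhds (ht i)

lemma surj_countable {H : Subgroup (ι → ℤˣ)} (hd : Dense (H : Set (ι → ℤˣ)))
    (hb : OmegaBounded H) {A : Set ι} (hA : A.Countable) (u : ι → ℤˣ) :
    ∃ h ∈ H, ∀ i ∈ A, h i = u i := by
  have : Countable A := hA.to_subtype
  let p : (ι → ℤˣ) → (A → ℤˣ) := fun g i => g i
  have hp : Continuous p := by fun_prop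
  have hs : Function.Surjective p := by
    intro v
    classical
    refine ⟨fun i => if h : i ∈ A then v ⟨i, h⟩ else 1, ?_⟩
    funext i
    show (if h : (i : ι) ∈ A then v ⟨i, h⟩ else 1) = v i
    rw [dif_pos i.2]
  have h1 : Dense (p '' (H : Set (ι → ℤˣ))) := hs.denseRange.dense_image hp hd
  obtain ⟨t, ht, htc, htd⟩ := h1.exists_countable_dense_subset
  choose f hf hf' using fun y : t => ht y.2
  have : Countable t := htc.to_subtype
  let S : Set H := range fun y : t => (⟨f y, hf y⟩ : H)
  have hK : IsCompact (closure S) := hb S (countable_range _)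
  have hK2 : IsCompact ((fun h : H => p h) '' closure S) :=
    hK.image (hp.comp continuous_subtype_val)
  have hK3 : closure t ⊆ (fun h : H => p h) '' closure S := by
    refine closure_minimal ?_ hK2.isClosed
    intro y hy
    exact ⟨⟨f ⟨y, hy⟩, hf _⟩, subset_closure ⟨⟨y, hy⟩, rfl⟩, hf' ⟨y, hy⟩⟩
  obtain ⟨h, _, hh⟩ := hK3 (htd (p u))
  exact ⟨h, h.2, fun i hi => congrFun hh ⟨i, hi⟩⟩

/-- closures in the whole group of countable subsets of an omega-bounded subgroup -/
lemma closure_countable {H : Subgroup (ι → ℤˣ)} (hb : OmegaBounded H) {S : Set (ι → ℤˣ)}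
    (hS : S.Countable) (hSH : S ⊆ H) : closure S ⊆ H := by
  have h1 : ((fun h : H => (h : ι → ℤˣ)) ⁻¹' S).Countable :=
    hS.preimage Subtype.val_injective
  have h2 := (hb _ h1).image continuous_subtype_val
  have h3 : closure S ⊆ (fun h : H => (h : ι → ℤˣ)) '' closure ((fun h : H => (h : ι → ℤˣ)) ⁻¹' S) := by
    refine closure_minimal ?_ h2.isClosed
    intro y hy
    exact ⟨⟨y, hSH hy⟩, subset_closure hy, rfl⟩
  intro y hy
  obtain ⟨z, _, rfl⟩ := h3 hy
  exact z.2

lemma closure_range {H : Subgroup (ι → ℤˣ)} (hb : OmegaBounded H)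
    (hc : ∀ i : ι, (Iio i).Countable) {x : ι → ι → ℤˣ} (hx : ∀ i, x i ∈ H)
    (h1 : ∀ i j, j < i → x i j = 1) : closure (range x) ⊆ H := by
  intro y hy
  by_contra hne
  have key : ∀ i, y i = 1 := by
    intro i
    have e : range x = x '' Iic i ∪ x '' Ioi i := by
      rw [← image_union, Iic_union_Ioi, image_univ]
    rw [e, closure_union] at hy
    rcases hy with hy | hy
    · have hcount : (Iic i).Countable := by
        rw [← Iio_insert]
        exact (hc i).insert i
      refine absurd (closure_countable hb (hcount.image x) ?_ hy) hne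
      rintro _ ⟨j, _, rfl⟩
      exact hx j
    · have hcl : IsClosed {z : ι → ℤˣ | z i = 1} := isClosed_eq (continuous_apply i) continuous_const
      refine closure_minimal ?_ hcl hy
      rintro _ ⟨j, hj, rfl⟩
      exact h1 j i hj
  apply hne
  rw [show y = 1 from funext key]
  exact one_mem H

lemma exists_span {x : ι → ι → ℤˣ} (h1 : ∀ i j, j < i → x i j = 1) (h2 : ∀ i, x i i = -1)
    (h : ι → ℤˣ) (F : Finset ι) : ∃ g ∈ Subgroup.closure (range x), ∀ i ∈ F, h i = g i := by
  induction F using Finset.induction_on_max with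
  | empty => exact ⟨1, one_mem _, by simp⟩
  | insert a s hmax ih =>
    obtain ⟨g, hg, hh⟩ := ih
    rcases Int.units_eq_one_or (h a * (g a)⁻¹) with h3 | h3
    · refine ⟨g, hg, fun i hi => ?_⟩
      rcases Finset.mem_insert.1 hi with rfl | hi
      · exact mul_inv_eq_one.1 h3
      · exact hh i hi
    · refine ⟨x a * g, mul_mem (Subgroup.subset_closure ⟨a, rfl⟩) hg, fun i hi => ?_⟩
      rcases Finset.mem_insert.1 hi with rfl | hi
      · rw [Pi.mul_apply, h2, ← h3, inv_mul_cancel_right]
      · rw [Pi.mul_apply, h1 a i (hmax i hi), one_mul]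
        exact hh i hi

/-- the open half circle -/
def V : Set Circle := {z | 0 < (z : ℂ).re}

lemma isOpen_V : IsOpen V :=
  isOpen_lt continuous_const (Complex.continuous_re.comp continuous_subtype_val)

lemma one_mem_V : (1 : Circle) ∈ V := by
  show 0 < ((1 : Circle) : ℂ).re
  simp

lemma eq_one_of_mem_V {z : Circle} (hz : z ∈ V) (h : z * z = 1) : z = 1 := by
  have h1 : (z : ℂ) * z = 1 := by
    rw [← Circle.coe_mul, h, Circle.coe_one]
  rcases mul_self_eq_one_iff.1 h1 with h2 | h2
  · exact Circle.ext (by rw [h2, Circle.coe_one])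
  · exfalso
    have h3 : 0 < (z : ℂ).re := hz
    rw [h2] at h3
    norm_num at h3

lemma sq_char {H : Subgroup (ι → ℤˣ)} (χ : PontryaginDual H) (h : H) : χ h * χ h = 1 := by
  rw [← map_mul]
  have : h * h = 1 := by
    apply Subtype.ext
    funext i
    exact Int.units_mul_self _
  rw [this, map_one]

lemma char_finite {H : Subgroup (ι → ℤˣ)} (χ : PontryaginDual H) :
    ∃ F : Finset ι, ∀ h : H, (∀ i ∈ F, (h : ι → ℤˣ) i = 1) → χ h = 1 := by
  have h1 : χ ⁻¹' V ∈ 𝓝 (1 : H) :=
    (isOpen_V.preimage (map_continuous χ)).mem_nhds (by rw [mem_preimage, map_one]; exact one_mem_V)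
  rw [nhds_subtype_eq_comap] at h1
  obtain ⟨U, hU, hU2⟩ := h1
  obtain ⟨F, hF⟩ := nhds_one hU
  exact ⟨F, fun h hh => eq_one_of_mem_V (hU2 (hF h hh)) (sq_char χ h)⟩

lemma char_finite_eq {H : Subgroup (ι → ℤˣ)} (χ : PontryaginDual H) :
    ∃ F : Finset ι, ∀ h h' : H, (∀ i ∈ F, (h : ι → ℤˣ) i = (h' : ι → ℤˣ) i) → χ h = χ h' := by
  obtain ⟨F, hF⟩ := char_finite χ
  refine ⟨F, fun h h' hh => ?_⟩
  have := hF (h * h'⁻¹) (fun i hi => by
    show (h : ι → ℤˣ) i * ((h' : ι → ℤˣ) i)⁻¹ = 1
    rw [hh i hi, mul_inv_cancel])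
  rw [map_mul, map_inv] at this
  exact mul_inv_eq_one.1 this

lemma discrete_dual {H : Subgroup (ι → ℤˣ)} (hd : Dense (H : Set (ι → ℤˣ))) (hb : OmegaBounded H)
    (hc : ∀ i : ι, (Iio i).Countable) : DiscreteTopology (PontryaginDual H) := by
  classical
  choose x hx h1 using fun i : ι => surj_countable hd hb (A := Iic i)
    (by rw [← Iio_insert]; exact (hc i).insert i) (fun j => if j = i then -1 else 1)
  have h2 : ∀ i j, j < i → x i j = 1 := fun i j hj => by
    rw [h1 i j hj.le, if_neg hj.ne]
  have h3 : ∀ i, x i i = -1 := fun i => by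
    rw [h1 i i (le_refl i), if_pos rfl]
  have h4 := closure_range hb hc hx h2
  have hC : IsCompact ((fun h : H => (h : ι → ℤˣ)) ⁻¹' closure (range x)) := by
    rw [Subtype.isCompact_iff]
    have e : Subtype.val '' ((fun h : H => (h : ι → ℤˣ)) ⁻¹' closure (range x)) =
        closure (range x) := by
      ext y
      constructor
      · rintro ⟨z, hz, rfl⟩
        exact hz
      · intro hy
        exact ⟨⟨y, h4 hy⟩, hy, rfl⟩
    rw [e]
    exact isClosed_closure.isCompact
  refine discreteTopology_of_isOpen_singleton_one ?_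
  have hO : IsOpen {ψ : PontryaginDual H |
      MapsTo ψ ((fun h : H => (h : ι → ℤˣ)) ⁻¹' closure (range x)) V} :=
    isOpen_induced (ContinuousMap.isOpen_setOfPred_mapsTo hC isOpen_V)
  convert hO using 1
  ext χ
  rw [mem_singleton_iff]
  constructor
  · rintro rfl h _
    exact one_mem_V
  · intro hχ
    have k1 : ∀ i, χ ⟨x i, hx i⟩ = 1 := fun i =>
      eq_one_of_mem_V (hχ (subset_closure (mem_range_self i))) (sq_char χ _)
    have k2 : ∀ g ∈ Subgroup.closure (range x), ∀ hg : g ∈ H, χ ⟨g, hg⟩ = 1 := by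
      intro g hg
      induction hg using Subgroup.closure_induction with
      | mem y hy =>
        obtain ⟨i, rfl⟩ := hy
        exact fun _ => k1 i
      | one => exact fun _ => map_one χ
      | mul a b ha hb ha' hb' =>
        intro _
        have hle : Subgroup.closure (range x) ≤ H := by
          rw [Subgroup.closure_le]
          rintro _ ⟨i, rfl⟩
          exact hx i
        have := map_mul χ ⟨a, hle ha⟩ ⟨b, hle hb⟩
        rw [ha' (hle ha), hb' (hle hb), mul_one] at this
        exact this
      | inv a ha ha' =>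
        intro h
        have h' : a ∈ H := by simpa using inv_mem h
        have := map_inv χ ⟨a, h'⟩
        rw [ha' h', inv_one] at this
        exact this
    obtain ⟨F, hF⟩ := char_finite_eq χ
    apply PontryaginDual.ext
    intro h
    obtain ⟨g, hg, hh⟩ := exists_span h2 h3 (h : ι → ℤˣ) F
    have hle : Subgroup.closure (range x) ≤ H := by
      rw [Subgroup.closure_le]
      rintro _ ⟨i, rfl⟩
      exact hx i
    rw [hF h ⟨g, hle hg⟩ hh, k2 g hg (hle hg)]
    rfl

lemma res_apply {G : Type} [CommGroup G] [TopologicalSpace G] (H : Subgroup G)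
    (χ : PontryaginDual G) (h : H) : res H χ h = χ h := rfl

lemma res_injective {H : Subgroup (ι → ℤˣ)} (hd : Dense (H : Set (ι → ℤˣ))) :
    Function.Injective (res H) := by
  intro χ ψ h
  have h1 : (χ : (ι → ℤˣ) → Circle) = ψ := by
    refine Continuous.ext_on hd (map_continuous χ) (map_continuous ψ) ?_
    intro g hg
    have := congrArg (fun k : PontryaginDual H => k ⟨g, hg⟩) h
    exact this
  exact DFunLike.coe_injective h1

lemma res_surjective {H : Subgroup (ι → ℤˣ)} (hd : Dense (H : Set (ι → ℤˣ))) :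
    Function.Surjective (res H) := by
  intro χ
  obtain ⟨F, hF⟩ := char_finite_eq χ
  have h1 : ∀ g : ι → ℤˣ, ∃ h : H, ∀ i ∈ F, (h : ι → ℤˣ) i = g i := by
    intro g
    have hO : IsOpen {k : ι → ℤˣ | ∀ i ∈ F, k i = g i} := by
      have e : {k : ι → ℤˣ | ∀ i ∈ F, k i = g i} = ⋂ i ∈ F, {k : ι → ℤˣ | k i = g i} := by
        ext k
        simp
      rw [e]
      refine isOpen_biInter_finset fun i _ => ?_
      have hi : Continuous fun k : ι → ℤˣ => k i := continuous_apply i
      exact (isOpen_discrete ({g i} : Set ℤˣ)).preimage hi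
    obtain ⟨k, hk, hk'⟩ := hd.exists_mem_open hO ⟨g, fun _ _ => rfl⟩
    exact ⟨⟨k, hk⟩, hk'⟩
  choose s hs using h1
  have hcont : Continuous fun g => χ (s g) := by
    rw [continuous_iff_continuousAt]
    intro g
    have hO : IsOpen {k : ι → ℤˣ | ∀ i ∈ F, k i = g i} := by
      have e : {k : ι → ℤˣ | ∀ i ∈ F, k i = g i} = ⋂ i ∈ F, {k : ι → ℤˣ | k i = g i} := by
        ext k
        simp
      rw [e]
      refine isOpen_biInter_finset fun i _ => ?_
      have hi : Continuous fun k : ι → ℤˣ => k i := continuous_apply i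
      exact (isOpen_discrete ({g i} : Set ℤˣ)).preimage hi
    have hev : ∀ᶠ k in 𝓝 g, χ (s k) = χ (s g) := by
      filter_upwards [hO.mem_nhds (fun _ _ => rfl)] with k hk
      refine hF _ _ fun i hi => ?_
      rw [hs k i hi, hs g i hi]
      exact hk i hi
    exact continuousAt_const.congr (hev.mono fun k hk => hk.symm)
  let ψ : (ι → ℤˣ) →ₜ* Circle :=
    { toFun := fun g => χ (s g)
      map_one' := by
        rw [← map_one χ]
        exact hF _ _ fun i hi => hs 1 i hi
      map_mul' := fun g g' => by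
        rw [← map_mul]
        refine hF _ _ fun i hi => ?_
        rw [hs _ i hi]
        show g i * g' i = (s g : ι → ℤˣ) i * (s g' : ι → ℤˣ) i
        rw [hs g i hi, hs g' i hi]
      continuous_toFun := hcont }
  refine ⟨ψ, ?_⟩
  apply PontryaginDual.ext
  intro h
  exact hF _ _ fun i hi => hs _ i hi

lemma not_metrizable [Uncountable ι] : ¬ TopologicalSpace.MetrizableSpace (ι → ℤˣ) := by
  intro _
  let _ := TopologicalSpace.metrizableSpaceMetric (ι → ℤˣ)
  obtain ⟨U, hU⟩ := (𝓝 (1 : ι → ℤˣ)).exists_antitone_basis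
  choose F hF using fun n => nhds_one (hU.1.mem_of_mem (i := n) trivial)
  have hcount : (⋃ n, (F n : Set ι)).Countable := countable_iUnion fun n => (F n).countable_toSet
  have hne : (⋃ n, (F n : Set ι)) ≠ univ := by
    intro h
    rw [h] at hcount
    exact (not_countable (α := ι)) (countable_univ_iff.1 hcount)
  obtain ⟨i, hi⟩ := (ne_univ_iff_exists_notMem _).1 hne
  have hO : {k : ι → ℤˣ | k i = 1} ∈ 𝓝 (1 : ι → ℤˣ) := by
    have hi : Continuous fun k : ι → ℤˣ => k i := continuous_apply i
    exact ((isOpen_discrete ({1} : Set ℤˣ)).preimage hi).mem_nhds rfl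
  obtain ⟨n, _, hn⟩ := hU.1.mem_iff.1 hO
  have h1 : (Function.update 1 i (-1) : ι → ℤˣ) ∈ U n := by
    refine hF n _ fun j hj => ?_
    have : j ≠ i := by
      rintro rfl
      exact hi (mem_iUnion.2 ⟨n, hj⟩)
    rw [Function.update_of_ne this]
    rfl
  have h2 := hn h1
  rw [mem_setOf_eq, Function.update_self] at h2
  exact absurd h2 (by decide)

end

/-- **There is a non-metrizable compact abelian group determined by each of its omega-bounded dense
subgroups.** -/
theorem result : ∃ (G : Type) (_ : CommGroup G) (_ : TopologicalSpace G) (_ : IsTopologicalGroup G)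
    (_ : CompactSpace G) (_ : T2Space G), ¬ TopologicalSpace.MetrizableSpace G ∧
    ∀ H : Subgroup G, Dense (H : Set G) → OmegaBounded H → Determines H := by
  obtain ⟨ι, _, hι, hc⟩ := exists_index
  refine ⟨ι → ℤˣ, inferInstance, inferInstance, inferInstance, inferInstance, inferInstance,
    not_metrizable, fun H hd hb => ?_⟩
  have := discrete_dual hd hb hc
  refine ⟨(res H).continuous_toFun, fun _ _ => isOpen_discrete _, res_injective hd,
    res_surjective hd⟩

end Pool.Agent.Results.MP_04f724_gt.OmegaBounded
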